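import Pool.Agent.U227.MotMain
import Pool.Agent.U227.MotKim

/-!
# Group actions and Kimura finite-dimensionality

Let `C` be a `ℚ`-linear symmetric monoidal category with split idempotents, for example the category of
Chow motives over a field. We assume the theorem of Kimura that direct sums and direct summands of finite-dimensional
objects are finite-dimensional. Let a finite group `G` act on an object `M`, for example on the motive of a
variety `X` on which `G` acts. The part of `M` fixed by a subgroup `H` is the motive of `X/H`. We show:

* `M` is finite-dimensional if and only if every irreducible rational representation `ρ` of `G` which
  occurs in `End(M)` modulo the endomorphisms factoring through finite-dimensional objects has a nonzero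
  vector fixed by a subgroup `H` such that the part of `M` fixed by `H` is finite-dimensional;
* the motive of `X/H` is finite-dimensional if those of all `X/D_j` are and every such `ρ` with a nonzero
  vector fixed by `H` has a nonzero vector fixed by some `D_j`;
* if `c` is an involution, then `X` is finite-dimensional if and only if `X/c` and `X/[G,c]` are; if `c`
  is contained in a nonabelian simple subgroup, if and only if `X/c` is; if a subgroup is partitioned into
  subgroups `D_j`, at least two, if and only if all `X/D_j` are; if `G` is commutative, if and only if all
  `X/K` are, `G/K` cyclic;
* if `X` is not finite-dimensional, but `X/H` is for all subgroups of prime order, then an irreducible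
  rational representation occurs in which the elements different from one fix only `0` (so `G` is
  a Frobenius complement), the commutative subgroups and the subgroups of order `p q` are cyclic, and `G`
  has at most one involution.

The proof: the elements of the rational group ring whose action on `M` factors through a finite-dimensional
object are a two-sided ideal, by the stability under direct sums. It contains `∑_(h ∈ H) h` if and only
if the part fixed by `H` is finite-dimensional, and `1` if and only if `M` is.

The representation theoretic criteria (involutions, simple groups, partitions, groups of order `p q`)
are from the library (`X252`, `X328`), where they are applied to the Künneth components.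
-/

open CategoryTheory MonoidalCategory Pool.Agent.X252.SCT Pool.Agent.U227.Grp Pool.Agent.U227.Mot

universe v u

namespace Pool.Agent.Results.MP_868bb7_ag.GroupActions

/-- **Group actions and Kimura finite-dimensionality.** -/
theorem result {C : Type u} [Category.{v} C] [MonoidalCategory C] [SymmetricCategory C]
    [Preadditive C] [Linear ℚ C] [IsIdempotentComplete C]
    (hK : IsStable (IsKimuraFinite (C := C))) {G : Type} [Group G] [Finite G] {M : C}
    (a : G →* End M) :
    (IsKimuraFinite M ↔ Covered IsKimuraFinite a) ∧
    (∀ (H : Subgroup G) (ι : Type) (D : ι → Subgroup G), Dominates IsKimuraFinite a H D →
      (∀ j, OnQuotient IsKimuraFinite a (D j)) → OnQuotient IsKimuraFinite a H) ∧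
    QuotientLaws (IsKimuraFinite M) (OnQuotient IsKimuraFinite a) ∧
    (¬ IsKimuraFinite M → AtPrimes (OnQuotient IsKimuraFinite a) →
      FreeOccurs IsKimuraFinite a ∧ CyclicSubgroups G) :=
  main hK a

end Pool.Agent.Results.MP_868bb7_ag.GroupActions
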