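import Pool.Agent.U724.CH.Kim

/-!
# MP_868bb7_ag: a variety is Kimura finite-dimensional or its Chow groups grow exponentially faster
than its cohomology

Let `X` be a smooth projective variety over a field `k` which satisfies the sign conjecture (the
projector of `H^*(X)` to the even part is algebraic: known for curves, surfaces, abelian varieties,
complete intersections and their products), `b` the sum of its Betti numbers, and let
`δ (n) = dim CH (X ^ n)_hom` be the dimension of the space of the homologically trivial cycles of all
dimensions on `X ^ n` with rational coefficients, a natural number or infinity.

Theorem. (1) **`X` is Kimura finite-dimensional or `δ (n) ≥ c ^ n` for all large `n`, for each `c` with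
`c ^ (b + 1) < b ^ (b + 1) + 1`.**

(2) For each `m ≥ 1`: all homologically trivial correspondences from `X ^ m` to itself are nilpotent,
or `δ (n) ≥ c ^ n` for all large `n`, for each `c` with `c ^ m < b ^ m + 1`.

In particular, if `lim inf δ (n) ^ (1 / n) ≤ b`, for instance if `δ (n) ≤ b ^ n` (or `≤ n ^ n₀ b ^ n`)
for infinitely many `n`, then `X` is Kimura finite-dimensional. For `m = 1`: if some homologically trivial
correspondence from `X` to itself is not nilpotent then `δ (n) > (b + 1 - ε) ^ n` for large `n`.

So a variety which is not Kimura finite-dimensional has exponentially more cycles on its powers
than it has cohomology classes. The statement has content for fields `k` where the Chow groups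
are small; by the conjectures of Bass and Beilinson and Bloch the numbers `δ (n)` are finite if
`k` is finitely generated over its prime field. For the problem: let `k` be a field of definition of
the complex variety, finitely generated over `ℚ`; if `X` is finite-dimensional over `k` then also over
`ℂ`. Earlier results (starting library) compare `dim CH (X ^ n)` with multiples of the numerical
rank `ρ (n) ≤ b ^ n`: if it is at most `c ρ (n)` for infinitely many `n` then `X` is finite-dimensional.

The setting. The Chow group `Chow X` of a scheme `X` (cycles of all dimensions with rational
coefficients modulo rational equivalence) is defined with the order of vanishing of Mathlib.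
Intersection theory enters through the category `C` of Chow motives over `k` with the correspondences
of all degrees as morphisms: a rigid symmetric monoidal pseudo-abelian category with objects
`h (X)` for the varieties `X` over `k`, `Hom (1, h (X)) = Chow X` and `h (X × Y) = h (X) ⊗ h (Y)`
(structure `Motives`). `R` is a Weil cohomology with coefficients extended to an algebraically
closed field `K`, a tensor functor from `C` to super vector spaces.

Idea of the proof. Let `y` be a homologically trivial correspondence from `X ^ m` to itself which is not
nilpotent, and let the homologically trivial correspondences from `X ^ m` to itself form a space of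
finite dimension. Then a polynomial in `y` without constant term is a nonzero idempotent `e`; so
`h (X ^ m) = A ⊕ P` with `P ≠ 0` of realisation zero. All tensor powers of `P` are nonzero
(because `P` is a direct summand of `P ⊗ P ⊗ P^∨`). The algebra of the correspondences from
`X ^ (m n)` to itself contains the direct sum of the spaces of the morphisms between the products
of `n - j` factors `A` and `j` factors `P` in all orders, twice `C (n, j)` of them. The endomorphisms
of `A ^ (n - j) ⊗ P ^ j` contain the tensor products of the numerically independent endomorphisms of
`A ^ (n - j)` with the identity of `P ^ j`. These are linearly independent, by partial traces.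
Therefore `δ (2 m n) ≥ ∑_{j ≥ 1} C (n, j) ^ 2 r (n - j)` where `r (k)` is the dimension of
the algebra of endomorphisms of `A ^ k` modulo numerical equivalence, at least
`b ^ (2 m k) / (k + 1) ^ (b ^ (2 m))`. For (1): the projector to the even part lifts if the
homologically trivial endomorphisms of `h (X)` are nilpotent, and then the exterior power of the
even part of order `b_+ + 1 ≤ b + 1` is a phantom summand of `h (X ^ (b_+ + 1))`.
-/

set_option autoImplicit false

open CategoryTheory MonoidalCategory Module Filter
open Pool.Agent.Y112.SR Pool.Agent.Y112.KD Pool.Agent.N64.AF Pool.Agent.U724.CH
open scoped ENNReal

namespace Pool.Agent.Results.MP_868bb7_ag.GrowthDichotomy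

universe u u' v w

/-- A smooth proper scheme `X` over a field with the sign conjecture is finite-dimensional in the
sense of Kimura or the homologically trivial cycles on its powers grow exponentially faster than the
cohomology. -/
theorem result {k : Type u} [Field k] {C : Type u'} [Category.{v} C] [Preadditive C]
    [MonoidalCategory C] [MonoidalPreadditive C] [SymmetricCategory C] [RightRigidCategory C]
    [Linear ℚ C] [MonoidalLinear ℚ C] [IsIdempotentComplete C] (M : Motives k C)
    {K : Type w} [Field K] [IsAlgClosed K] [Algebra ℚ K] (R : SuperRealisation C K)
    (X : Sch k) (hX : M.IsVar X) (hne : Nonempty X.left) (hs : R.CPlus (M.h X)) :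
    (Pool.Agent.R905.IsKimuraFinite (M.h X) ∨ ∀ c : ℝ, 0 ≤ c →
      c ^ (M.betti R X + 1) < (M.betti R X : ℝ) ^ (M.betti R X + 1) + 1 → M.Grows R hX c) ∧
    ∀ m : ℕ, 0 < m → M.HomNilp R (power X m) ∨
        ∀ c : ℝ, 0 ≤ c → c ^ m < (M.betti R X : ℝ) ^ m + 1 → M.Grows R hX c :=
  M.kimura_or R hX hne hs

end Pool.Agent.Results.MP_868bb7_ag.GrowthDichotomy
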