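import Pool.Agent.U436.HP.Main

/-!
# Diagonal complete intersections which are finite quotients of powers of curves

Let `k` be an algebraically closed field (for the problem `k = ℂ`), `n ≥ 1` invertible in `k`, `p 1, …, p N ∈ k`
distinct, `c 1, …, c N ∈ k` nonzero, and let `X ⊆ ℙ^(N-1)` be given by the `m` equations

  `∑ i, c i * p i ^ j * x i ^ n = 0`, `0 ≤ j < m`, where `m + d + 1 = N`, `d ≥ 1`.

(In other words: `X` is given by `m` forms `∑ i, a j i * x i ^ n`, and the `N` columns of the matrix `a` are
distinct points of a rational normal curve in `ℙ^(m-1)`.) Let `C ⊆ ℙ^(N-1)` be the curve given by the equations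
`∑ i, p i ^ j / ∏ l ≠ i, (p i - p l) * y i ^ n = 0`, `0 ≤ j < N - 2`.

We show that `X` and `C` satisfy the Jacobian criterion everywhere, so they are smooth complete intersections of
dimensions `d` and `1`, and that for suitable nonzero constants `lam i` the coordinatewise (Hadamard) product

  `(y 1, …, y d) ↦ (lam i * ∏ j, y j i) i`

is defined everywhere on `C ^ d` and maps `C ^ d` onto `X`; its fibres are the orbits of the finite group of the
pairs of a permutation of the `d` factors and a `d`-tuple of vectors of `n`-th roots of unity whose product is a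
scalar vector. Moreover every smooth complete intersection of two diagonal hypersurfaces of the same degree,
`∑ i, a i * x i ^ n = ∑ i, b i * x i ^ n = 0` with nonzero minors `a i * b l - a l * b i`, is one of the
varieties `X` with `m = 2`.

So the morphism `C ^ d → X` is finite and surjective, and the Chow motive of `X` is a direct summand of the motive
of `C ^ d`. By the theorem of Kimura (curves, tensor products, direct summands; not formalised) all the varieties
`X`, in all dimensions, codimensions and degrees, are finite-dimensional in the sense of Kimura.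

The idea of the proof: `x` is a point of `X` if and only if the numbers `c i * x i ^ n / w i`, `w i` the weights of
the divided difference, are the values `P (p i)` of a polynomial `P ≠ 0` of degree at most `d`; and `P` is a product
of `d` linear forms.
-/

set_option autoImplicit false

namespace Pool.Agent.Results.MP_868bb7_ag.HadamardPowers

open Pool.Agent.U436.HP Finset

theorem result :
    (∀ (k : Type) [Field k] [IsAlgClosed k] (n N m d : ℕ), (n : k) ≠ 0 → 1 ≤ d → m + d + 1 = N →
      ∀ p c : Fin N → k, Function.Injective p → (∀ i, c i ≠ 0) →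
        (∀ x ∈ pts n m p c, LinearIndependent k fun (j : Fin m) (i : Fin N) =>
          MvPolynomial.eval x (MvPolynomial.pderiv i (form n p c j))) ∧
        (∀ y ∈ curve n p, LinearIndependent k fun (j : Fin (N - 2)) (i : Fin N) =>
          MvPolynomial.eval y (MvPolynomial.pderiv i (form n p (wt p) j))) ∧
        ∃ lam : Fin N → k, (∀ i, lam i ≠ 0) ∧
          (∀ y : Fin d → Fin N → k, (∀ j, y j ∈ curve n p) → (fun i => lam i * ∏ j, y j i) ∈ pts n m p c) ∧
          (∀ x ∈ pts n m p c, ∃ y : Fin d → Fin N → k,
            (∀ j, y j ∈ curve n p) ∧ ∀ i, x i = lam i * ∏ j, y j i) ∧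
          (∀ y y' : Fin d → Fin N → k, (∀ j, y j ∈ curve n p) → (∀ j, y' j ∈ curve n p) →
            ((∃ t : k, t ≠ 0 ∧ ∀ i, lam i * ∏ j, y' j i = t * (lam i * ∏ j, y j i)) ↔
              ∃ (σ : Equiv.Perm (Fin d)) (ζ : Fin d → Fin N → k) (τ : k) (s : Fin d → k),
                (∀ j i, ζ j i ^ n = 1) ∧ (∀ i, ∏ j, ζ j i = τ) ∧ (∀ j, s j ≠ 0) ∧
                  ∀ j i, y' j i = s j * (ζ j i * y (σ j) i)))) ∧
    (∀ (k : Type) [Field k] [IsAlgClosed k] (n N : ℕ), 2 ≤ N → ∀ a b : Fin N → k,
      (∀ i l, i ≠ l → a i * b l - a l * b i ≠ 0) →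
        ∃ p c : Fin N → k, Function.Injective p ∧ (∀ i, c i ≠ 0) ∧
          pts n 2 p c = {x | x ≠ 0 ∧ ∑ i, a i * x i ^ n = 0 ∧ ∑ i, b i * x i ^ n = 0}) := by
  refine ⟨?_, ?_⟩
  · intro k _ _ n N m d hn hd hN p c hp hc
    have hn0 : n ≠ 0 := by rintro rfl; simp at hn
    have hN2 : 2 ≤ N := by omega
    refine ⟨fun x hx => smooth hn hp hc hN hx, fun y hy => ?_, ?_⟩
    · exact smooth (d := 1) hn hp (fun i => wt_ne_zero hp i) (by omega) hy
    · choose lam hlam using fun i => IsAlgClosed.exists_pow_nat_eq (wt p i / c i) (Nat.pos_of_ne_zero hn0)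
      have h1 : ∀ i, c i * lam i ^ n = wt p i := fun i => by
        rw [hlam i, mul_div_cancel₀ _ (hc i)]
      have h0 : ∀ i, lam i ≠ 0 := fun i h => wt_ne_zero hp i (by rw [← h1 i, h, zero_pow hn0, mul_zero])
      exact ⟨lam, h0, fun y hy => prod_mem hn0 hp hd hN h1 y hy,
        fun x hx => exists_prod hn0 hp hc hd hN h1 hx,
        fun y y' hy hy' => prod_eq_iff hn0 hp hd hN h0 hy hy'⟩
  · intro k _ _ n N hN a b hab
    have : Infinite k := IsAlgClosed.instInfinite
    exact two_forms hab hN n

end Pool.Agent.Results.MP_868bb7_ag.HadamardPowers
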