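import Pool.Agent.U672.SF.Main

/-!
# Kimura finite-dimensionality of schemes built from systems of equations with few terms

`k` is a perfect field, for instance `ℂ`, and `D` the triangulated category of geometric motives over `k`
with rational coefficients, in the form of its standard properties (`MotiveFacts`); it contains the
category of Chow motives. An object `A` is evenly finite-dimensional if `⋀ⁿ A = 0` for some `n`, oddly
finite-dimensional if `Symⁿ A = 0` for some `n`, and Kimura finite-dimensional if it is the sum of an evenly
and an oddly finite-dimensional object. These objects are stable under sums, tensor products,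
direct factors and Tate twists (Kimura, O'Sullivan), and the motives of the smooth proper curves are
Kimura finite-dimensional. Kimura's conjecture is that the motives of all smooth projective varieties are. Only
these known facts are assumed.

The *excess* of a system of polynomials is the sum of (number of terms - 2) over its members with at
least three terms.

**Theorem.** Kimura's conjecture is true for all smooth proper `X`, of any dimension, which can be obtained from
the following schemes by cutting and pasting, products of affine schemes and quotients by finite free
coverings (`Constructed 1`):
* the closed subschemes of affine spaces defined by a system `G` of excess at most two and polynomials `H`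
  with any numbers of terms whose exponents are independent modulo the differences of the exponents
  of `G`; for instance all hypersurfaces with at most four terms, and all hypersurfaces with affinely
  independent exponents, singular or not;
* the schemes `∑ f_j (x_j) = g (y)`, where the `f_j` are polynomials in separate variables, each of them
  quasi-homogeneous in at most two variables or a trilinear form with a block of at most three
  variables, and `g` is a function on an affine scheme of dimension at most one;
* all schemes of dimension at most one;
* all smooth proper schemes which are Kimura finite-dimensional.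
More generally, if Kimura's conjecture is true in dimension at most `N`, then it is true for all smooth
proper schemes in the class `Constructed N` (the same with excess at most `N + 1`, schemes of
dimension at most `N`, and so on).

Kimura finite-dimensionality does not have the two-out-of-three property in distinguished triangles, and
the motives of the intermediate schemes, which are neither smooth nor proper, need not be Kimura
finite-dimensional. What is inherited is the property to be in the thick tensor subcategory which is
generated by the given motives, and its Chow motives are obtained with direct sums, tensor products,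
twists and direct factors only.
-/

set_option autoImplicit false

open CategoryTheory MonoidalCategory AlgebraicGeometry Pool.Agent.TH137.DG Pool.Agent.Y116.UV
  Pool.Agent.Z125.UN Pool.Agent.U672.SF

namespace Pool.Agent.Results.MP_868bb7_ag.SystemsOfFewTerms

universe v u

variable {C : Type u} [Category.{v} C] [MonoidalCategory C] [BraidedCategory C] [Preadditive C]

/-- `⋀ⁿ A = 0` for some `n ≥ 1`: the antisymmetrizer of the `n`-th tensor power is zero. -/
def IsEven (A : C) : Prop :=
  ∃ n : ℕ, 1 ≤ n ∧ ∑ σ : Equiv.Perm (Fin n), (Equiv.Perm.sign σ : ℤ) • permAct A n σ = 0

/-- `Symⁿ A = 0` for some `n ≥ 1`: the symmetrizer of the `n`-th tensor power is zero. -/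
def IsOdd (A : C) : Prop := ∃ n : ℕ, 1 ≤ n ∧ ∑ σ : Equiv.Perm (Fin n), permAct A n σ = 0

/-- `A` is Kimura finite-dimensional: it is the direct sum of an evenly finite-dimensional object `P` and
an oddly finite-dimensional object `Q`. -/
def IsKimura (A : C) : Prop :=
  ∃ (P Q : C) (i : P ⟶ A) (j : Q ⟶ A) (p : A ⟶ P) (q : A ⟶ Q), IsEven P ∧ IsOdd Q ∧
    i ≫ p = 𝟙 P ∧ j ≫ q = 𝟙 Q ∧ i ≫ q = 0 ∧ j ≫ p = 0 ∧ p ≫ i + q ≫ j = 𝟙 A

/-- The known properties: the Kimura finite-dimensional objects are stable under direct sums and
direct factors (`factor`: under direct factors of sums), tensor products and Tate twists. -/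
structure KimuraFacts (L : C) : Prop where
  factor : ∀ (A B S : C) (i₁ : A ⟶ S) (i₂ : B ⟶ S) (p₁ : S ⟶ A) (p₂ : S ⟶ B),
    p₁ ≫ i₁ + p₂ ≫ i₂ = 𝟙 S → IsKimura A → IsKimura B → IsKimura S
  tensor : ∀ A B : C, IsKimura A → IsKimura B → IsKimura (A ⊗ B)
  twist : ∀ A : C, IsKimura (L ⊗ A) ↔ IsKimura A

/-- **Theorem.** (1) Let the motives of the smooth proper schemes of dimension at most one be Kimura
finite-dimensional (this is known). Then the motive of every smooth proper scheme `X` is Kimura
finite-dimensional if `X` is constructed from systems of equations of excess at most two with further
equations with independent exponents, schemes `∑ f_j (x_j) = g (y)` over curves, schemes of dimension at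
most one and smooth proper schemes which are Kimura finite-dimensional. (2) If the smooth proper schemes of
dimension at most `N` are Kimura finite-dimensional, then the same holds with `N` instead of one. -/
theorem result {k : Type} [Field k] {C : Type u} [Category.{v} C] [MonoidalCategory C]
    [SymmetricCategory C] [Preadditive C] [Linear ℚ C] [Limits.HasZeroObject C] [HasShift C ℤ]
    [∀ n : ℤ, (shiftFunctor C n).Additive] [Pretriangulated C] {D : Motives k C}
    (hD : MotiveFacts D) (hK : KimuraFacts D.L)
    (hcurves : ∀ X, SmoothProper X → topologicalKrullDim X.left ≤ (1 : ℕ) → IsKimura (D.M X)) :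
    (∀ X, SmoothProper X → Constructed 1 (fun Y => SmoothProper Y ∧ IsKimura (D.M Y)) X →
      IsKimura (D.M X)) ∧
    ∀ N : ℕ, 1 ≤ N →
      (∀ X, SmoothProper X → topologicalKrullDim X.left ≤ N → IsKimura (D.M X)) →
      ∀ X, SmoothProper X → Constructed N (fun Y => SmoothProper Y ∧ IsKimura (D.M Y)) X →
        IsKimura (D.M X) := by
  have key : ∀ N : ℕ, 1 ≤ N →
      (∀ X, SmoothProper X → topologicalKrullDim X.left ≤ N → IsKimura (D.M X)) →
      ∀ X, SmoothProper X → Constructed N (fun Y => SmoothProper Y ∧ IsKimura (D.M Y)) X →
        IsKimura (D.M X) := by
    intro N hN h X hp hX
    have h1 := constructed_pure hD hN (fun X hX => hX.1) (fun X h1 h2 => ⟨h1, h X h1 h2⟩) X hX hp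
    generalize D.M X = A at h1
    induction h1 with
    | gen X hX => exact hX.2
    | factor A B T i₁ i₂ p₁ p₂ h _ _ h1 h2 => exact hK.factor A B T i₁ i₂ p₁ p₂ h h1 h2
    | tensor A B _ _ h1 h2 => exact hK.tensor A B h1 h2
    | twist A _ h1 => exact (hK.twist A).mpr h1
    | untwist A _ h1 => exact (hK.twist A).mp h1
  exact ⟨key 1 le_rfl hcurves, key⟩

end Pool.Agent.Results.MP_868bb7_ag.SystemsOfFewTerms
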